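import Pool.Agent.RFM.P21
import Pool.Agent.RFM.P20

set_option autoImplicit false

/-!
# MP_72a26e_co, Q1 (own statement beside the proof of S09465)

There is an absolute constant `C` such that every finite planar point set in general position
with at least three points has a simple polygonization with at most `C * K(P)` reflex vertices,
where `K(P)` is the convex partition number.
-/

namespace Pool.Agent.Results.MP_72a26e_co.ReflexLinear

/-- no three points of `P` are collinear -/
def GeneralPosition (P : Finset (ℝ × ℝ)) : Prop :=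
  ∀ a ∈ P, ∀ b ∈ P, ∀ c ∈ P, a ≠ b → a ≠ c → b ≠ c →
    ¬ Collinear ℝ ({a, b, c} : Set (ℝ × ℝ))

/-- a partition of `P` into sets in convex position with pairwise disjoint convex hulls -/
def IsConvexPartition {P : Finset (ℝ × ℝ)} (F : Finpartition P) : Prop :=
  (∀ A ∈ F.parts, ConvexIndependent ℝ (fun x : (A : Set (ℝ × ℝ)) => (x : ℝ × ℝ))) ∧
    ∀ A ∈ F.parts, ∀ B ∈ F.parts, A ≠ B →
      Disjoint (convexHull ℝ (A : Set (ℝ × ℝ))) (convexHull ℝ (B : Set (ℝ × ℝ)))

/-- the convex partition number: the least number of parts of a convex partition -/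
noncomputable def convexPartitionNumber (P : Finset (ℝ × ℝ)) : ℕ :=
  sInf {k | ∃ F : Finpartition P, IsConvexPartition F ∧ F.parts.card = k}

/-- `v 0, v 1, ..., v (n - 1)` (with `n = P.card`, indices read modulo `n`) is a simple polygon
with vertex set `P`, listed counterclockwise: edges that are not consecutive are disjoint,
consecutive edges meet in their common vertex only, and the signed area is positive -/
def IsPolygonization (P : Finset (ℝ × ℝ)) (v : ℕ → ℝ × ℝ) : Prop :=
  (∀ i, v (i + P.card) = v i) ∧
  Set.InjOn v (Set.Iio P.card) ∧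
  v '' Set.Iio P.card = (P : Set (ℝ × ℝ)) ∧
  (∀ i j, i < P.card → j < P.card → i ≠ j → j ≠ (i + 1) % P.card → i ≠ (j + 1) % P.card →
    Disjoint (segment ℝ (v i) (v (i + 1))) (segment ℝ (v j) (v (j + 1)))) ∧
  (∀ i, segment ℝ (v i) (v (i + 1)) ∩ segment ℝ (v (i + 1)) (v (i + 2)) = {v (i + 1)}) ∧
  0 < ∑ i ∈ Finset.range P.card, ((v i).1 * (v (i + 1)).2 - (v (i + 1)).1 * (v i).2)

/-- the number of reflex vertices of a polygonization (listed counterclockwise): the number of
clockwise turns -/
noncomputable def reflexVertices (P : Finset (ℝ × ℝ)) (v : ℕ → ℝ × ℝ) : ℕ :=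
  ((Finset.range P.card).filter (fun i =>
    ((v (i + 1)).1 - (v i).1) * ((v (i + 2)).2 - (v (i + 1)).2)
      - ((v (i + 1)).2 - (v i).2) * ((v (i + 2)).1 - (v (i + 1)).1) < 0)).card

/-- the reflexivity of `P`: the least number of reflex vertices of a polygonization -/
noncomputable def reflexivity (P : Finset (ℝ × ℝ)) : ℕ :=
  sInf {r | ∃ v, IsPolygonization P v ∧ reflexVertices P v = r}

theorem exists_convexPartition (P : Finset (ℝ × ℝ)) :
    ∃ F : Finpartition P, IsConvexPartition F := by
  classical
  refine ⟨⊥, ?_, ?_⟩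
  · intro A hA
    rw [Finpartition.mem_bot_iff] at hA
    obtain ⟨a, _, rfl⟩ := hA
    have : Subsingleton (((({a} : Finset (ℝ × ℝ)) : Set (ℝ × ℝ)))) := by
      rw [Finset.coe_singleton]
      infer_instance
    intro s x hx
    have hs : s.Nonempty := by
      rcases s.eq_empty_or_nonempty with rfl | h
      · simp at hx
      · exact h
    obtain ⟨y, hy⟩ := hs
    rwa [Subsingleton.elim x y]
  · intro A hA B hB hAB
    rw [Finpartition.mem_bot_iff] at hA hB
    obtain ⟨a, _, rfl⟩ := hA
    obtain ⟨b, _, rfl⟩ := hB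
    simp only [Finset.coe_singleton, convexHull_singleton, Set.disjoint_singleton]
    intro h
    exact hAB (by rw [h])

/-- There is an absolute constant `C` such that every finite point set `P` in the plane in general
position with at least three points has a polygonization, and its reflexivity is at most `C`
times its convex partition number. -/
theorem result : ∃ C : ℕ, ∀ P : Finset (ℝ × ℝ), 3 ≤ P.card → GeneralPosition P →
    (∃ v, IsPolygonization P v) ∧ reflexivity P ≤ C * convexPartitionNumber P := by
  obtain ⟨K, hK⟩ := Pool.Agent.RFX.exists_nf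
  obtain ⟨C, hC⟩ := Pool.Agent.RFX.s09465_of_target2 _ (Pool.Agent.RFX.target2_of_nf hK)
  refine ⟨C, ?_⟩
  intro P h3 hG
  have hne : {k | ∃ F : Finpartition P, IsConvexPartition F ∧ F.parts.card = k}.Nonempty := by
    obtain ⟨F, hF⟩ := exists_convexPartition P
    exact ⟨_, F, hF, rfl⟩
  obtain ⟨F, hF, hFk⟩ := Nat.sInf_mem hne
  obtain ⟨v, v1, v2, v3, v4, v5, v6, v7⟩ := hC P h3 hG F hF.1
    (fun A hA B hB hAB => hF.2 A hA B hB hAB)
  have hv : IsPolygonization P v := ⟨v1, v2, v3, v4, v5, v6⟩
  have hr : reflexivity P ≤ reflexVertices P v := Nat.sInf_le ⟨v, hv, rfl⟩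
  refine ⟨⟨v, hv⟩, hr.trans ?_⟩
  have e : convexPartitionNumber P = F.parts.card := hFk.symm
  rw [e]
  exact v7

end Pool.Agent.Results.MP_72a26e_co.ReflexLinear
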